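import Pool.Agent.R805.Stab.Unique

/-!
# MP_e8bda8_co, Q1 (answered: proved)

For every `n ≥ 1` the identity is the unique permutation `w ∈ S_n` with `stab(w) = n`.

All definitions are in `Pool/Agent/R805/Stab/Defs.lean`; rows, columns and entries are numbered
from `0`:

* a filling is given by the cell (row, column) of each entry `0, …, N-1`, together with the inner
  shape `μ`;
* `Slide N T h T'`: jeu de taquin moves starting from the empty cell `h` (as long as there are
  entries directly to the right of or directly below the empty cell, the smaller one moves into it);
* `InnerSlide`: a slide into a corner of the inner shape;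
* `IsRect N μ T R`: `R` is obtained by inner slides until the inner shape is empty;
* `cellOf w e`: the cell of the entry `e = w j + i n` in `T_w^{(k)}` (row `n-1-j`, column `j+i`);
  `innerOf n`: the inner shape, `r ↦ n-1-r`; `T_w^{(k)}` has the entries `0, …, k n - 1`;
* `Stabilizes w k`: in the rectification of `T_w^{(k)}` the entries `(k-1) n, …, k n - 1` are in
  the same rows as in `T_w^{(k)}`;
* `stab w`: the least `k ≥ 1` such that `w` stabilizes at `k`.

The second part of the theorem records that the rectification exists and is unique, so that the
existential quantifier in `Stabilizes` is harmless.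
-/

namespace Pool.Agent.Results.MP_e8bda8_co.IdentityUnique

open Pool.Agent.R805.Stab

theorem result : ∀ n : ℕ, 1 ≤ n →
    (∀ w : Equiv.Perm (Fin n), stab w = n ↔ w = 1) ∧
    (∀ (w : Equiv.Perm (Fin n)) (k : ℕ),
      ∃ R, IsRect (k * n) (innerOf n) (cellOf w) R ∧
        ∀ R', IsRect (k * n) (innerOf n) (cellOf w) R' → ∀ e < k * n, R' e = R e) :=
  main

end Pool.Agent.Results.MP_e8bda8_co.IdentityUnique
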